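import Pool.Agent.H73.CBE.Stmts

/-!
Row PCA of the board CBE (MP_e1af46_an): packing near a point.
-/

set_option autoImplicit false

open Set Filter Topology

namespace Pool.CBE

open Classical in
/-- The chart with values in the orthogonal complement of the line of `z`. -/
noncomputable def pca_phi {n : ℕ} (z x : E n) : (Submodule.span ℂ {z})ᗮ :=
  if h : (inner ℂ z ((inner ℂ z x : ℂ)⁻¹ • x - z) : ℂ) = 0 then
    ⟨(inner ℂ z x : ℂ)⁻¹ • x - z, (Submodule.mem_orthogonal_singleton_iff_inner_right).2 h⟩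
  else 0

theorem pca_phi_coe {n : ℕ} (z x : E n)
    (h : (inner ℂ z ((inner ℂ z x : ℂ)⁻¹ • x - z) : ℂ) = 0) :
    ((pca_phi z x : (Submodule.span ℂ {z})ᗮ) : E n) = (inner ℂ z x : ℂ)⁻¹ • x - z := by
  unfold pca_phi
  rw [dif_pos h]

theorem pca_finrank (n : ℕ) (z : E n) (hn : 2 ≤ n) (hz : z ≠ 0) :
    Module.finrank ℝ ((Submodule.span ℂ {z})ᗮ : Submodule ℂ (E n)) = 2 * n - 2 := by
  have h1 : Module.finrank ℝ ((Submodule.span ℂ {z})ᗮ : Submodule ℂ (E n)) =
      2 * Module.finrank ℂ ((Submodule.span ℂ {z})ᗮ : Submodule ℂ (E n)) :=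
    finrank_real_of_complex _
  have : Fact (Module.finrank ℂ (E n) = (n - 1) + 1) := ⟨by
    have : Module.finrank ℂ (E n) = n := by simp
    omega⟩
  have h2 : Module.finrank ℂ ((Submodule.span ℂ {z})ᗮ : Submodule ℂ (E n)) = n - 1 :=
    Submodule.finrank_orthogonal_span_singleton hz
  rw [h1, h2]
  omega

theorem PCA_thm (h1 : CHTStmt) (h2 : PKBStmt) : PCAStmt := by
  classical
  intro n s t T z hn hs ht ht2 hT hz
  have hz0 : z ≠ 0 := by
    intro h
    rw [h, norm_zero] at hz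
    exact zero_ne_one hz
  have hm : ∀ x ∈ near T z t, x ∈ T ∧ ‖x‖ = 1 ∧ dl z x ≤ t := by
    intro x hx
    unfold near at hx
    rw [Finset.mem_filter] at hx
    exact ⟨hx.1, hT.1 x hx.1, hx.2⟩
  have hs1 : ∀ x ∈ near T z t, ∀ y ∈ near T z t, x ≠ y → s ≤ ‖pca_phi z x - pca_phi z y‖ := by
    intro x hx y hy hxy
    obtain ⟨x1, x2, x3⟩ := hm x hx
    obtain ⟨y1, y2, y3⟩ := hm y hy
    obtain ⟨a1, -, a3⟩ := h1 n z x y hz x2 y2 (by linarith) (by linarith)
    obtain ⟨b1, -, -⟩ := h1 n z y x hz y2 x2 (by linarith) (by linarith)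
    have c1 := hT.2 x x1 y y1 hxy
    have c2 : ‖pca_phi z x - pca_phi z y‖ =
        ‖((inner ℂ z x : ℂ)⁻¹ • x - z) - ((inner ℂ z y : ℂ)⁻¹ • y - z)‖ := by
      rw [Submodule.coe_norm, Submodule.coe_sub, pca_phi_coe z x a1, pca_phi_coe z y b1]
    rw [c2]
    exact c1.trans a3
  have hinj : Set.InjOn (pca_phi z) (near T z t : Set (E n)) := by
    intro x hx y hy hxy
    by_contra hne
    have := hs1 x hx y hy hne
    rw [hxy, sub_self, norm_zero] at this
    linarith
  have hcard : ((near T z t).image (pca_phi z)).card = (near T z t).card :=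
    Finset.card_image_of_injOn hinj
  have key := h2 ((Submodule.span ℂ {z})ᗮ : Submodule ℂ (E n))
    ((near T z t).image (pca_phi z)) (2 * t) s hs (by linarith) ?_ ?_
  · rw [hcard, pca_finrank n z hn hz0] at key
    have e : 1 + 2 * (2 * t) / s = 1 + 4 * t / s := by ring
    rw [e] at key
    exact key
  · intro u hu
    rw [Finset.mem_image] at hu
    obtain ⟨x, hx, rfl⟩ := hu
    obtain ⟨x1, x2, x3⟩ := hm x hx
    obtain ⟨a1, a2, -⟩ := h1 n z x x hz x2 x2 (by linarith) (by linarith)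
    have c2 : ‖pca_phi z x‖ = ‖(inner ℂ z x : ℂ)⁻¹ • x - z‖ := by
      rw [Submodule.coe_norm, pca_phi_coe z x a1]
    rw [c2]
    linarith
  · intro u hu v hv huv
    rw [Finset.mem_image] at hu hv
    obtain ⟨x, hx, rfl⟩ := hu
    obtain ⟨y, hy, rfl⟩ := hv
    exact hs1 x hx y hy (fun h => huv (by rw [h]))

end Pool.CBE
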